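import Pool.Agent.H620R2.GaugeX.KeyX
import Pool.Agent.H620R2.GaugeR.R6

/-! Polynomial advice: iterated advice, `ZPP` has polynomial-size circuits. -/

namespace Pool.Agent.H752.GP

open Pool.Agent.NPC Pool.Agent.H620R2.Gauge

theorem isRP_of_isZPP {A : Oracle} {L : Set (List Bool)} (h : IsZPP A L) : IsRP A L := by
  obtain ⟨V, p, hV, hL⟩ := h
  refine ⟨V, p, hV, fun x => ⟨fun hx => ?_, fun hx => ?_⟩⟩
  · refine (hL x).2.trans ?_
    unfold accPr
    apply div_le_div_of_nonneg_right _ (by positivity)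
    have h1 : ∀ w : Fin (p.eval x.length) → Bool, (V (pairBits (List.ofFn w) x) = [true] ∨
        V (pairBits (List.ofFn w) x) = [false]) ↔ V (pairBits (List.ofFn w) x) = [true] := by
      intro w
      constructor
      · rintro (h | h)
        · exact h
        · exact absurd hx (((hL x).1 (List.ofFn w) (by simp)).2 h)
      · exact Or.inl
    simp only [h1]
    exact le_rfl
  · unfold accPr
    have h1 : ∀ w : Fin (p.eval x.length) → Bool, V (pairBits (List.ofFn w) x) ≠ [true] := by
      intro w hw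
      exact hx (((hL x).1 (List.ofFn w) (by simp)).1 hw)
    have : IsEmpty {w : Fin (p.eval x.length) → Bool // V (pairBits (List.ofFn w) x) = [true]} :=
      ⟨fun w => h1 w.1 w.2⟩
    rw [Nat.card_of_isEmpty]
    simp

/-- rearranging the advice strings -/
def re (y : List Bool) : List Bool :=
  pairBits (pairBits (unpair y).1 (unpair (unpair y).2).1) (unpair (unpair y).2).2

theorem poly_re : Poly re := by
  have h1 : Poly (fun z : List Bool => (unpair z).1) := Poly.fst poly_unpair
  have h2 : Poly (fun z : List Bool => (unpair z).2) := Poly.snd poly_unpair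
  exact H622R2.poly_pairBits (H622R2.poly_pairBits h1 (h1.comp h2)) (h2.comp h2)

theorem re_pair (x u v : List Bool) : re (pairBits x (pairBits u v)) = pairBits (pairBits x u) v := by
  unfold re
  rw [unpair_pairBits, unpair_pairBits]

theorem withAdvice_idem {A : Oracle} {L : Set (List Bool)}
    (h : WithAdvice (WithAdvice (IsP A)) L) : WithAdvice (IsP A) L := by
  obtain ⟨L', h, p, ⟨L'', h', p', ⟨V, hV, hL''⟩, hh', hL'⟩, hh, hL⟩ := h
  refine ⟨{y | V (re y) = [true]}, fun n => pairBits (h n) (h' (2 * n + 1 + (h n).length)),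
    Polynomial.C 2 * p + Polynomial.C 1 + p'.comp (Polynomial.C 2 * Polynomial.X +
      Polynomial.C 1 + p), ⟨fun y => V (re y), hV.precomp poly_re, fun y => Iff.rfl⟩,
    fun n => ?_, fun x => ?_⟩
  · rw [length_pairBits]
    have h1 := hh n
    have h2 := hh' (2 * n + 1 + (h n).length)
    have h3 : p'.eval (2 * n + 1 + (h n).length) ≤ p'.eval (2 * n + 1 + p.eval n) :=
      eval_mono _ (by omega)
    simp only [Polynomial.eval_add, Polynomial.eval_mul, Polynomial.eval_C, Polynomial.eval_X,
      Polynomial.eval_comp]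
    omega
  · rw [hL x, hL' (pairBits x (h x.length)), hL'', length_pairBits]
    show _ ↔ V (re (pairBits x (pairBits (h x.length)
      (h' (2 * x.length + 1 + (h x.length).length))))) = [true]
    rw [re_pair]

theorem withAdvice_mono {C D : Set (List Bool) → Prop} (hCD : ∀ L, C L → D L)
    {L : Set (List Bool)} (h : WithAdvice C L) : WithAdvice D L := by
  obtain ⟨L', h, p, hL', hh, hL⟩ := h
  exact ⟨L', h, p, hCD _ hL', hh, hL⟩

theorem compl_withAdvice {C D : Set (List Bool) → Prop} (hCD : ∀ L, C L → D Lᶜ)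
    {L : Set (List Bool)} (h : WithAdvice C L) : WithAdvice D Lᶜ := by
  obtain ⟨L', h, p, hL', hh, hL⟩ := h
  refine ⟨L'ᶜ, h, p, hCD _ hL', hh, fun x => ?_⟩
  rw [Set.mem_compl_iff, Set.mem_compl_iff, hL]

/-- For the oracles of the construction, `P/poly = NP/poly` and `P ≠ NP`. -/
theorem lower {A : Oracle} (h1 : ∀ L, IsEXP A L ∨ IsPSPACE A L → IsZPP A L)
    (h2 : ∃ L, IsZPP A L ∧ ¬ IsP A L) :
    (∀ L, WithAdvice (IsP A) L ↔ WithAdvice (IsNP A) L) ∧ ∃ L, IsNP A L ∧ ¬ IsP A L := by
  refine ⟨fun L => ⟨withAdvice_mono fun L h => h.isNP, fun h => ?_⟩, ?_⟩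
  · apply withAdvice_idem
    exact withAdvice_mono (fun L h => (isRP_of_isZPP (h1 L (Or.inr h.isPSPACE))).withAdvice) h
  · obtain ⟨L, hL, hL'⟩ := h2
    exact ⟨L, hL.isNP, hL'⟩

theorem upper {A : Oracle} (h : ∀ L, WithAdvice (IsP A) L ↔ WithAdvice (IsNP A) L)
    (L : Set (List Bool)) (hL : IsNP A L) : WithAdvice (IsNP A) Lᶜ :=
  compl_withAdvice (fun _ h => h.compl.isNP) ((h L).2 hL.withAdvice)

end Pool.Agent.H752.GP
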